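import Mathlib
import Pool.Agent.Q17.LS.Bk
import Pool.Agent.Q323.CO.Tup

/-!
# Abel–Jacobi maps of products of the curves of the family `X_0(4)` over multiquadratic fields

All `g`-tuples of elliptic curves over `ℚ` with a rational cyclic subgroup of order 4, ordered by the
height or by the conductor, `A = E₁ × ... × E_g`. For every `m` and `N` there is a finite list of fields
`K = ℚ(√(q_1 q'_1), ..., √(q_m q'_m))` of degree `2 ^ m`, all the primes `q_i`, `q'_i` larger than `N`,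
and `δ > 0` such that for all large `Z` for some field `K` of the list at least a proportion `δ` of the
tuples of curves of size at most `Z` has `A(K) ⊗ ℚ₂ = 0` and `H¹_f(K, M₂) = 0`, where `M = h¹(A)(1)`
over `K`, so that the 2-adic Abel–Jacobi map of `M` is an isomorphism onto the Bloch–Kato Selmer group.
For `m = 0` the field is `ℚ`. Moreover the 2-primary parts of the Tate-Shafarevich groups of the curves
`E_i` over `K` are killed by `2 ^ (m + 1)`.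

The condition `Cyclic4 A B` is defined in `Pool.Agent.Q17.IG.Cyc`: there is a point `P` of order 4 of
`y² = x³ + A x + B` over the algebraic closure of `ℚ` such that `σ P = P` or `σ P = -P` for all
automorphisms `σ`.
-/

set_option autoImplicit false

namespace Pool.Agent.Results.MP_009fd8_ag.CyclicFourProducts

open Finset Filter Topology NumberField

open Pool.Agent.Y667.BKK (H1f)

open Pool.Agent.Q17.IG (Cyclic4)

/-- The prime-to-6 part of the conductor of `y² = x³ + A x + B` (there is no prime `p` with `p⁴ ∣ A`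
and `p⁶ ∣ B`): the product over the primes `p ≥ 5` dividing `4 A³ + 27 B²` of `p` (multiplicative
reduction: `p ∤ A`) or `p²` (additive reduction: `p ∣ A`) -/
def Cond6 (c : ℤ × ℤ) : ℕ :=
  ∏ p ∈ (Int.natAbs (4 * c.1 ^ 3 + 27 * c.2 ^ 2)).primeFactors.filter (fun p => 5 ≤ p),
    if (p : ℤ) ∣ c.1 then p ^ 2 else p

/-- the admissible factors: functions with values between `1` and `2 ^ 8 * 3 ^ 5`, for instance the
part of the conductor composed of the primes 2 and 3, or `f = 1` -/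
def Factor (f : ℤ × ℤ → ℕ) : Prop := ∀ c, 1 ≤ f c ∧ f c ≤ 2 ^ 8 * 3 ^ 5

/-- the naive height of `y² = x³ + A x + B` is at most `Z` -/
def HeightLe (c : ℤ × ℤ) (Z : ℕ) : Prop := 4 * |c.1| ^ 3 ≤ Z ∧ 27 * c.2 ^ 2 ≤ Z

/-- the conductor (its prime-to-6 part times the factor `f`) of `y² = x³ + A x + B` is at most `Z` -/
def CondLe (f : ℤ × ℤ → ℕ) (c : ℤ × ℤ) (Z : ℕ) : Prop := f c * Cond6 c ≤ Z

/-- the orderings: by the height, or by the conductor with an admissible factor -/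
def Ordering (I : ℤ × ℤ → ℕ → Prop) : Prop := I = HeightLe ∨ ∃ f, Factor f ∧ I = CondLe f

/-- The pairs `(A, B)` of integers such that `4 A³ + 27 B² ≠ 0`, there is no prime `p` with
`p⁴ ∣ A` and `p⁶ ∣ B`, `y² = x³ + A x + B` has a rational cyclic subgroup of order 4, and the size
(`HeightLe` or `CondLe`) is at most `Z`. Every elliptic curve over `ℚ` with a rational cyclic subgroup of
order 4 is isomorphic to `y² = x³ + A x + B` for exactly one pair with the first three properties. -/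
def Fam (I : ℤ × ℤ → ℕ → Prop) (Z : ℕ) : Set (ℤ × ℤ) :=
  {c : ℤ × ℤ | 4 * c.1 ^ 3 + 27 * c.2 ^ 2 ≠ 0 ∧
    (∀ p : ℕ, p.Prime → ¬ ((p : ℤ) ^ 4 ∣ c.1 ∧ (p : ℤ) ^ 6 ∣ c.2)) ∧
    Cyclic4 c.1 c.2 ∧ I c Z}

/-- the `g`-tuples of curves of size at most `Z` -/
def Tuples (I : ℤ × ℤ → ℕ → Prop) (g Z : ℕ) : Set (Fin g → ℤ × ℤ) := {c | ∀ i, c i ∈ Fam I Z}

/-- the proportion of the tuples of `S` among the tuples of curves of size at most `Z` -/
noncomputable def proportion (I : ℤ × ℤ → ℕ → Prop) (g : ℕ) (S : Set (Fin g → ℤ × ℤ)) (Z : ℕ) : ℝ :=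
  ((Tuples I g Z ∩ S).ncard : ℝ) / (Tuples I g Z).ncard

/-- the curve `y² = x³ + A x + B` over `K`, `c = (A, B)` -/
def EK (K : Type) [Field K] (c : ℤ × ℤ) : WeierstrassCurve K := ⟨0, 0, 0, (c.1 : K), (c.2 : K)⟩

/-- `K = ℚ(√d_1, ..., √d_m)` -/
def IsField {m : ℕ} (d : Fin m → ℕ) (K : Type) [Field K] [NumberField K] : Prop :=
  ∃ x : Fin m → K, (∀ i, x i ^ 2 = (d i : K)) ∧ IntermediateField.adjoin ℚ (Set.range x) = ⊤

/-- The tuples `(q_1 q'_1, ..., q_m q'_m)`, where the `q_i` and `q'_i` are `2 m` distinct primes, all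
larger than `N`. -/
def Tuple {m : ℕ} (N : ℕ) (d : Fin m → ℕ) : Prop :=
  ∃ q q' : Fin m → ℕ, (∀ i, d i = q i * q' i) ∧ (∀ i, (q i).Prime ∧ N < q i) ∧
    (∀ i, (q' i).Prime ∧ N < q' i) ∧ Function.Injective q ∧ Function.Injective q' ∧
    ∀ i j, q i ≠ q' j

open Classical in
/-- The `g`-tuples of curves such that for the field `K = ℚ(√d_1, ..., √d_m)` the groups
`A(K) ⊗ ℚ₂` and `H¹_f(K, M₂)`, `A = ∏ E_i`, `M = h¹(A)(1)`, `H¹_f(K, M₂) = ∏ H¹_f(K, V₂ E_i)`, are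
zero, and all the elements of 2-power order of the Tate-Shafarevich groups of the `E_i` over `K` are
killed by `2 ^ (m + 1)`. -/
def AJIso {m : ℕ} (g : ℕ) (d : Fin m → ℕ) : Set (Fin g → ℤ × ℤ) :=
  {c | ∀ (K : Type) [Field K] [NumberField K], IsField d K →
    (∀ x : TensorProduct ℤ ((i : Fin g) → (EK K (c i)).toAffine.Point) ℚ_[2], x = 0) ∧
    (∀ x : (i : Fin g) → H1f (EK K (c i)), x = 0) ∧
    ∀ (i : Fin g) (k : ℕ) (x : Pool.Agent.TH841.NF.D.Sha (EK K (c i))),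
      (2 ^ k : ℕ) • x = 0 → (2 ^ (m + 1) : ℕ) • x = 0}

/-! ### Proofs -/

lemma cond_eq (c : ℤ × ℤ) : Pool.Agent.Y679.Cr.cs c = Cond6 c := by
  unfold Pool.Agent.Y679.Cr.cs Pool.Agent.H925R.Szpiro.condS Cond6
  rw [Pool.Agent.Y679.Cr.D_neg, Int.natAbs_neg]
  refine prod_congr rfl fun p _ => ?_
  by_cases h : (p : ℤ) ∣ c.1
  · rw [if_pos h, if_pos (Int.dvd_neg.2 h)]
  · rw [if_neg h, if_neg fun h' => h (Int.dvd_neg.1 h')]

lemma bdd {f : ℤ × ℤ → ℕ} (hf : Factor f) : Pool.Agent.Y679.Cr.Bdd f :=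
  fun c => ⟨(hf c).1, (hf c).2.trans (by norm_num)⟩

lemma FamC_eq (f : ℤ × ℤ → ℕ) (Z : ℕ) :
    Fam (CondLe f) Z = Pool.Agent.Y679.Cr.Gm Pool.Agent.Q17.IG.P4 f Z := by
  ext c
  unfold Fam CondLe Pool.Agent.Y679.Cr.Gm Pool.Agent.Q17.IG.P4 Pool.Agent.Q17.IG.Rd
  rw [Set.mem_ofPred_eq, Set.mem_ofPred_eq, cond_eq]
  constructor
  · rintro ⟨h1, h2, h3, h4⟩
    exact ⟨⟨h1, h2, (Pool.Agent.Q17.IG.cyclic4_iff h1).1 h3⟩, h4⟩
  · rintro ⟨⟨h1, h2, h3⟩, h4⟩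
    exact ⟨h1, h2, (Pool.Agent.Q17.IG.cyclic4_iff h1).2 h3, h4⟩

lemma FamH_eq (H : ℕ) : Fam HeightLe H = (Pool.Agent.Q17.IG.Fm H : Set (ℤ × ℤ)) := by
  ext c
  rw [mem_coe, Pool.Agent.Q17.IG.mem_Fm]
  unfold Fam HeightLe
  rw [Set.mem_ofPred_eq]
  constructor
  · rintro ⟨h1, h2, h3, h4, h5⟩
    exact ⟨h1, h4, h5, h2, (Pool.Agent.Q17.IG.cyclic4_iff h1).1 h3⟩
  · rintro ⟨h1, h4, h5, h2, h3⟩
    exact ⟨h1, h2, (Pool.Agent.Q17.IG.cyclic4_iff h1).2 h3, h4, h5⟩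

lemma FamC_fin {f : ℤ × ℤ → ℕ} (hf : Factor f) (Z : ℕ) : (Fam (CondLe f) Z).Finite := by
  rw [FamC_eq]
  exact Pool.Agent.Q17.IG.G4_fin (bdd hf) Z

lemma FamC_tendsto {f : ℤ × ℤ → ℕ} (hf : Factor f) :
    Tendsto (fun Z : ℕ => (Fam (CondLe f) Z).ncard) atTop atTop := by
  obtain ⟨c, Z0, hc, h⟩ := Pool.Agent.Q17.IG.G4_ge
  rw [← tendsto_natCast_atTop_iff (R := ℝ)]
  have h1 : Tendsto (fun Z : ℕ => c * (Z : ℝ) ^ ((2 : ℝ) / 3)) atTop atTop :=
    Tendsto.const_mul_atTop hc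
      ((tendsto_rpow_atTop (by norm_num)).comp tendsto_natCast_atTop_atTop)
  refine tendsto_atTop_mono' atTop (eventually_atTop.2 ⟨Z0, fun Z hZ => ?_⟩) h1
  change c * (Z : ℝ) ^ ((2 : ℝ) / 3) ≤ ((Fam (CondLe f) Z).ncard : ℝ)
  rw [FamC_eq]
  exact h f (bdd hf) Z hZ

lemma FamH_tendsto : Tendsto (fun H : ℕ => (Fam HeightLe H).ncard) atTop atTop := by
  obtain ⟨C4, N1, hC4, h⟩ := Pool.Agent.Q17.IG.Fm_lower
  rw [Filter.tendsto_atTop_atTop]
  intro b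
  obtain ⟨n, hn⟩ := exists_nat_gt (C4 * b)
  refine ⟨(max N1 n + 1) ^ 6, fun H hH => ?_⟩
  have h1 := h (max N1 n + 1) H (by omega) (hH.trans (Nat.le_mul_of_pos_left H (by norm_num)))
  rw [FamH_eq, Set.ncard_coe_finset]
  have h2 : (n : ℝ) ≤ ((max N1 n + 1 : ℕ) : ℝ) := by
    have : n ≤ max N1 n + 1 := by omega
    exact_mod_cast this
  have h3 : (1 : ℝ) ≤ ((max N1 n + 1 : ℕ) : ℝ) := by
    have : 1 ≤ max N1 n + 1 := by omega
    exact_mod_cast this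
  have h4 : C4 * b ≤ C4 * (Pool.Agent.Q17.IG.Fm H).card := by nlinarith
  exact_mod_cast le_of_mul_le_mul_left h4 hC4

lemma Fam_fin {I : ℤ × ℤ → ℕ → Prop} (hI : Ordering I) (Z : ℕ) : (Fam I Z).Finite := by
  rcases hI with rfl | ⟨f, hf, rfl⟩
  · rw [FamH_eq]
    exact finite_toSet _
  · exact FamC_fin hf Z

lemma Fam_tendsto {I : ℤ × ℤ → ℕ → Prop} (hI : Ordering I) :
    Tendsto (fun Z : ℕ => (Fam I Z).ncard) atTop atTop := by
  rcases hI with rfl | ⟨f, hf, rfl⟩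
  · exact FamH_tendsto
  · exact FamC_tendsto hf

lemma gen_of {m : ℕ} {d : Fin m → ℕ} {K : Type} [Field K] [NumberField K] (h : IsField d K) :
    Pool.Agent.TH841.NF.Gen K (fun j => (d j : ℤ)) := by
  obtain ⟨x, hx, hg⟩ := h
  exact ⟨x, fun i => by rw [hx i, Int.cast_natCast], hg⟩

lemma tup_pos {m N : ℕ} {d : Fin m → ℕ} (h : Tuple N d) (i : Fin m) : (d i : ℤ) ≠ 0 := by
  obtain ⟨q, q', h1, h2, h3, -⟩ := h
  rw [h1 i]
  exact_mod_cast mul_ne_zero (h2 i).1.ne_zero (h3 i).1.ne_zero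

lemma deg_of {m N : ℕ} {d : Fin m → ℕ} (hd : Tuple N d) (K : Type) [Field K] [NumberField K]
    (hK : IsField d K) : Module.finrank ℚ K = 2 ^ m := by
  obtain ⟨q, q', h1, h2, h3, h4, h5, h6⟩ := hd
  refine Pool.Agent.Y388.QK.DEG m q q' (fun j => (h2 j).1) (fun j => (h3 j).1) h4 h5 h6 K ?_
  have := gen_of hK
  have e : (fun j => ((q j * q' j : ℕ) : ℤ)) = fun j => (d j : ℤ) := by
    funext j
    rw [h1 j]
  rw [e]
  exact this

open Classical in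
lemma good_of {m N g : ℕ} {d : Fin m → ℕ} (hd : Tuple N d) {c : Fin g → ℤ × ℤ}
    (h : ∀ i, Pool.Agent.Q17.IG.Q4 (Pool.Agent.Y667.QK.TwS (fun j => (d j : ℤ))) (c i)) :
    c ∈ AJIso g d := by
  intro K _ _ hK
  have h4 : ∀ i, Finite (EK K (c i)).toAffine.Point := fun i =>
    (Pool.Agent.Q17.LS.NF.field4 (tup_pos hd) (h i) K (gen_of hK)).2.1
  exact ⟨Pool.Agent.Y667.BK.tensor_zero, fun x => funext fun i =>
    (Pool.Agent.Q17.LS.NF.bk4 (tup_pos hd) (h i) K (gen_of hK)).2 (x i),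
    fun i => (Pool.Agent.Q17.LS.NF.field4 (tup_pos hd) (h i) K (gen_of hK)).2.2⟩

/-- positive proportions in both orderings, one of finitely many properties -/
lemma posL {ι : Type} {Lst : Finset ι} {T : ι → ℤ × ℤ → Prop} (hT : ∃ c : ℝ, 0 < c ∧
      ∃ H0 : ℕ, ∀ H : ℕ, H0 ≤ H → ∃ d ∈ Lst, ∃ S : Finset (ℤ × ℤ), (S : Set (ℤ × ℤ)) ⊆
        {k | k ∈ Pool.Agent.W307.RT.Cv 2 H ∧ T d k} ∧
      c * ((Pool.Agent.W307.RT.Cv 2 H).card : ℝ) ≤ (S.card : ℝ))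
    {I : ℤ × ℤ → ℕ → Prop} (hI : Ordering I) :
    ∃ δ : ℝ, 0 < δ ∧ ∀ᶠ Z : ℕ in atTop, ∃ d ∈ Lst,
      δ * ((Fam I Z).ncard : ℝ) ≤
        ((Fam I Z ∩ {c | Pool.Agent.Q17.IG.Q4 (T d) c}).ncard : ℝ) := by
  classical
  rcases hI with rfl | ⟨f, hf, rfl⟩
  · obtain ⟨δ, hδ, H0, h⟩ := Pool.Agent.Q17.QF.posHL hT
    refine ⟨δ, hδ, ?_⟩
    filter_upwards [eventually_ge_atTop H0] with H h1
    obtain ⟨d, hd, h3⟩ := h H h1
    refine ⟨d, hd, ?_⟩
    rw [FamH_eq, Set.ncard_coe_finset]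
    refine h3.trans (Nat.cast_le.2 ?_)
    rw [← Set.ncard_coe_finset]
    refine Set.ncard_le_ncard (fun k hk => ?_) ((finite_toSet _).subset Set.inter_subset_left)
    rw [mem_coe, mem_filter] at hk
    exact ⟨mem_coe.2 hk.1, hk.2⟩
  · obtain ⟨δ, hδ, h⟩ := Pool.Agent.Q17.QF.posCL hT
    refine ⟨δ, hδ, ?_⟩
    filter_upwards [h f (bdd hf), (FamC_tendsto hf).eventually_gt_atTop 0] with Z hZ h0
    have h0' : (0 : ℝ) < ((Fam (CondLe f) Z).ncard : ℝ) := by exact_mod_cast h0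
    obtain ⟨d, hd, h3⟩ := hZ
    refine ⟨d, hd, ?_⟩
    rw [← FamC_eq, le_div_iff₀ h0'] at h3
    exact h3

/-- one of finitely many -/
lemma pack {ι : Type} (L : Finset ι) (p : ι → ℕ → ℝ) (δ : ℝ)
    (h : ∀ᶠ Z : ℕ in atTop, ∃ d ∈ L, δ ≤ p d Z) : ∃ d ∈ L, ∃ᶠ Z : ℕ in atTop, δ ≤ p d Z := by
  by_contra hcon
  push Not at hcon
  have h1 : ∀ᶠ Z : ℕ in atTop, ∀ d ∈ L, ¬ δ ≤ p d Z := by
    rw [Filter.eventually_all_finset]
    intro d hd
    exact (hcon d hd).mono fun Z hZ => not_le.2 hZ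
  obtain ⟨Z, hZ1, hZ2⟩ := (h.and h1).exists
  obtain ⟨d, hd, hle⟩ := hZ1
  exact hZ2 d hd hle

/-- **Theorem.** Let `g ≥ 0`. Order the elliptic curves over `ℚ` with a rational cyclic subgroup of
order 4 by the height or by the conductor (times an arbitrary factor as in `Factor`). There are finitely
many `g`-tuples of curves of size at most `Z`, the number of the curves tends to infinity with `Z`, and
for all `m`, `N` there are a finite list `L` of tuples of products of two primes larger than `N`, the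
`2 m` primes distinct, so that the fields `K = ℚ(√d_1, ..., √d_m)` have degree `2 ^ m`, and `δ > 0` such
that for all large `Z` for some `d` in `L` at least a proportion `δ` of the `g`-tuples of curves has
`A(K) ⊗ ℚ₂ = 0` and `H¹_f(K, M₂) = 0`, `A = ∏ E_i`, `M = h¹(A)(1)`, and 2-primary parts of the
Tate-Shafarevich groups `Ш(E_i/K)` that are killed by `2 ^ (m + 1)`; and one `d` in `L` has this
property for arbitrarily large `Z`. -/
theorem result (g : ℕ) : ∀ I : ℤ × ℤ → ℕ → Prop, Ordering I →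
    (∀ Z : ℕ, (Tuples I g Z).Finite) ∧ Tendsto (fun Z : ℕ => (Fam I Z).ncard) atTop atTop ∧
    ∀ m N : ℕ, ∃ L : Finset (Fin m → ℕ), (∀ d ∈ L, Tuple N d ∧
        ∀ (K : Type) [Field K] [NumberField K], IsField d K → Module.finrank ℚ K = 2 ^ m) ∧
      ∃ δ : ℝ, 0 < δ ∧ (∀ᶠ Z : ℕ in atTop, ∃ d ∈ L, δ ≤ proportion I g (AJIso g d) Z) ∧
        ∃ d ∈ L, ∃ᶠ Z : ℕ in atTop, δ ≤ proportion I g (AJIso g d) Z := by
  intro I hI
  refine ⟨fun Z => Pool.Agent.Q323.CO.fin (Fam_fin hI Z), Fam_tendsto hI, fun m N => ?_⟩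
  obtain ⟨L, hL, hpos⟩ := Pool.Agent.Q17.QF.simul m N
  obtain ⟨δ, hδ, h⟩ := posL hpos hI
  have key : ∀ᶠ Z : ℕ in atTop, ∃ d ∈ L, δ ^ g ≤ proportion I g (AJIso g d) Z := by
    filter_upwards [h, (Fam_tendsto hI).eventually_gt_atTop 0] with Z hZ h0
    obtain ⟨d, hd, h1⟩ := hZ
    refine ⟨d, hd, ?_⟩
    have h4 := Pool.Agent.Q323.CO.tup (g := g) (Fam_fin hI Z)
      (fun _ => {k | Pool.Agent.Q17.IG.Q4 (Pool.Agent.Y667.QK.TwS (fun j => (d j : ℤ))) k})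
      (fun _ => δ) (fun _ => hδ.le) (by exact_mod_cast h0) (fun _ => h1) (AJIso g d)
      (fun c hc => good_of (hL d hd) fun i => (hc i).2)
    rw [prod_const, card_univ, Fintype.card_fin] at h4
    exact h4
  exact ⟨L, fun d hd => ⟨hL d hd, fun K _ _ hK => deg_of (hL d hd) K hK⟩, δ ^ g,
    pow_pos hδ g, key, pack L (fun d Z => proportion I g (AJIso g d) Z) (δ ^ g) key⟩

end Pool.Agent.Results.MP_009fd8_ag.CyclicFourProducts
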