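import Mathlib
import Pool.Agent.Y667.QK.Main0
import Pool.Agent.Y667.OG.Rank
import Pool.Agent.Y667.BK.Fin
import Pool.Agent.Y667.BKK.Main
import Pool.Agent.Y388.QK.Deg
import Pool.Agent.Y388.QK.Flip
import Pool.Agent.W307.RT.Tors
import Pool.Agent.Y679.Cr.Conv
import Pool.Agent.Y679.Cr.Dens
import Pool.Agent.Q323.CO.List
import Pool.Agent.Q323.CO.Tup

/-!
# Abel–Jacobi maps of products of elliptic curves over multiquadratic fields, by conductor

All `g`-tuples of elliptic curves over `ℚ` with full rational 2-torsion, ordered by the conductor (with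
an arbitrary bounded factor in the place of its part composed of 2 and 3), with no bound on the height,
`A = E₁ × ... × E_g`. For every `m` and `N` there is a finite list of fields
`K = ℚ(√(q_1 q'_1), ..., √(q_m q'_m))` of degree `2 ^ m`, all the primes `q_i`, `q'_i` larger than
`N`, and `δ > 0` such that for all large `Z` for some field `K` of the list at least a proportion `δ`
of the tuples of conductor at most `Z` has `A(K) ⊗ ℚ₂ = 0` and `H¹_f(K, M₂) = 0`, where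
`M = h¹(A)(1)` over `K`, so that the 2-adic Abel–Jacobi map of `M` is an isomorphism onto the
Bloch–Kato Selmer group. One field of the list has this property for arbitrarily large `Z`. For
`m = 0` the field is `ℚ`.
-/

set_option autoImplicit false

namespace Pool.Agent.Results.MP_009fd8_ag.ProductsByConductor

open Finset Filter Topology

open Pool.Agent.Y667.BKK (H1f)

/-- the curve `y² = x³ + A x + B` over `ℚ` -/
def E (A B : ℤ) : WeierstrassCurve ℚ := ⟨0, 0, 0, (A : ℚ), (B : ℚ)⟩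

/-- The prime-to-6 part of the conductor of `y² = x³ + A x + B` (there is no prime `p` with `p⁴ ∣ A`
and `p⁶ ∣ B`): the product over the primes `p ≥ 5` dividing `4 A³ + 27 B²` of `p` (multiplicative
reduction: `p ∤ A`) or `p²` (additive reduction: `p ∣ A`) -/
def Cond6 (c : ℤ × ℤ) : ℕ :=
  ∏ p ∈ (Int.natAbs (4 * c.1 ^ 3 + 27 * c.2 ^ 2)).primeFactors.filter (fun p => 5 ≤ p),
    if (p : ℤ) ∣ c.1 then p ^ 2 else p

/-- the admissible factors: functions with values between `1` and `2 ^ 8 * 3 ^ 5`, for instance the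
part of the conductor composed of the primes 2 and 3, or `f = 1` -/
def Factor (f : ℤ × ℤ → ℕ) : Prop := ∀ c, 1 ≤ f c ∧ f c ≤ 2 ^ 8 * 3 ^ 5

/-- the conductor (its prime-to-6 part times the factor `f`) of `y² = x³ + A x + B` is at most `Z` -/
def CondLe (f : ℤ × ℤ → ℕ) (c : ℤ × ℤ) (Z : ℕ) : Prop := f c * Cond6 c ≤ Z

/-- The pairs `(A, B)` of integers such that `4 A³ + 27 B² ≠ 0`, there is no prime `p` with
`p⁴ ∣ A` and `p⁶ ∣ B`, `Z/2 x Z/2` embeds in the group of the rational points of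
`y² = x³ + A x + B`, and the conductor (with the factor `f`) is at most `Z`. Every elliptic curve
over `ℚ` with full rational 2-torsion is isomorphic to `E A B` for exactly one pair with the first
three properties. -/
def Fam (f : ℤ × ℤ → ℕ) (Z : ℕ) : Set (ℤ × ℤ) :=
  {c : ℤ × ℤ | 4 * c.1 ^ 3 + 27 * c.2 ^ 2 ≠ 0 ∧
    (∀ p : ℕ, p.Prime → ¬ ((p : ℤ) ^ 4 ∣ c.1 ∧ (p : ℤ) ^ 6 ∣ c.2)) ∧
    (∃ g : ZMod 2 × ZMod 2 →+ (E c.1 c.2).toAffine.Point, Function.Injective g) ∧ CondLe f c Z}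

/-- the `g`-tuples of curves of conductor at most `Z` -/
def Tuples (f : ℤ × ℤ → ℕ) (g Z : ℕ) : Set (Fin g → ℤ × ℤ) := {c | ∀ i, c i ∈ Fam f Z}

/-- the proportion of the tuples of `S` among the tuples of curves of conductor at most `Z` -/
noncomputable def proportion (f : ℤ × ℤ → ℕ) (g : ℕ) (S : Set (Fin g → ℤ × ℤ)) (Z : ℕ) : ℝ :=
  ((Tuples f g Z ∩ S).ncard : ℝ) / (Tuples f g Z).ncard

/-- the curve `y² = x³ + A x + B` over `K`, `c = (A, B)` -/
def EK (K : Type) [Field K] (c : ℤ × ℤ) : WeierstrassCurve K := ⟨0, 0, 0, (c.1 : K), (c.2 : K)⟩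

/-- `K = ℚ(√d_1, ..., √d_m)` -/
def IsField {m : ℕ} (d : Fin m → ℕ) (K : Type) [Field K] [NumberField K] : Prop :=
  ∃ x : Fin m → K, (∀ i, x i ^ 2 = (d i : K)) ∧ IntermediateField.adjoin ℚ (Set.range x) = ⊤

/-- The tuples `(q_1 q'_1, ..., q_m q'_m)`, where the `q_i` and `q'_i` are `2 m` distinct primes, all
larger than `N`. -/
def Tuple {m : ℕ} (N : ℕ) (d : Fin m → ℕ) : Prop :=
  ∃ q q' : Fin m → ℕ, (∀ i, d i = q i * q' i) ∧ (∀ i, (q i).Prime ∧ N < q i) ∧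
    (∀ i, (q' i).Prime ∧ N < q' i) ∧ Function.Injective q ∧ Function.Injective q' ∧
    ∀ i j, q i ≠ q' j

open Classical in
/-- The `g`-tuples of curves such that for the field `K = ℚ(√d_1, ..., √d_m)` the groups
`A(K) ⊗ ℚ₂` and `H¹_f(K, M₂)`, `A = ∏ E_i`, `M = h¹(A)(1)`, `H¹_f(K, M₂) = ∏ H¹_f(K, V₂ E_i)`, are
zero. -/
def AJIso {m : ℕ} (g : ℕ) (d : Fin m → ℕ) : Set (Fin g → ℤ × ℤ) :=
  {c | ∀ (K : Type) [Field K] [NumberField K], IsField d K →
    (∀ x : TensorProduct ℤ ((i : Fin g) → (EK K (c i)).toAffine.Point) ℚ_[2], x = 0) ∧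
    ∀ x : (i : Fin g) → H1f (EK K (c i)), x = 0}

lemma gen_of {m : ℕ} {d : Fin m → ℕ} {K : Type} [Field K] [NumberField K] (h : IsField d K) :
    Pool.Agent.TH841.NF.Gen K (fun j => (d j : ℤ)) := by
  obtain ⟨x, hx, hg⟩ := h
  exact ⟨x, fun i => by rw [hx i, Int.cast_natCast], hg⟩

lemma tup_pos {m N : ℕ} {d : Fin m → ℕ} (h : Tuple N d) (i : Fin m) : (d i : ℤ) ≠ 0 := by
  obtain ⟨q, q', h1, h2, h3, -⟩ := h
  rw [h1 i]
  exact_mod_cast mul_ne_zero (h2 i).1.ne_zero (h3 i).1.ne_zero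

lemma map_eq (K : Type) [Field K] [NumberField K] (c : ℤ × ℤ) :
    (⟨0, 0, 0, (c.1 : ℚ), (c.2 : ℚ)⟩ : WeierstrassCurve ℚ).map (algebraMap ℚ K) = EK K c := by
  apply WeierstrassCurve.ext
  · exact map_zero _
  · exact map_zero _
  · exact map_zero _
  · exact map_intCast _ _
  · exact map_intCast _ _

open Classical in
lemma good_of {m N g : ℕ} {d : Fin m → ℕ} (hd : Tuple N d) {c : Fin g → ℤ × ℤ}
    (hD : ∀ i, 4 * (c i).1 ^ 3 + 27 * (c i).2 ^ 2 ≠ 0)
    (hT : ∀ i, ∃ f : ZMod 2 × ZMod 2 →+ (E (c i).1 (c i).2).toAffine.Point, Function.Injective f)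
    (h : ∀ i, Pool.Agent.Y667.QK.TwS (fun j => (d j : ℤ)) (c i)) : c ∈ AJIso g d := by
  intro K _ _ hK
  have h4 : ∀ i, Finite (EK K (c i)).toAffine.Point := by
    intro i
    obtain ⟨h1, -, -⟩ := Pool.Agent.Y667.QK.field_of (tup_pos hd) (hD i)
      (Pool.Agent.W307.RT.tors_iff.2 (hT i)) (h i) K (gen_of hK)
    have hfg : Module.Finite ℤ (EK K (c i)).toAffine.Point := by
      have h2 : (Pool.Agent.W307.RT.Sh (c i).1 (c i).2).baseChange K = EK K (c i) :=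
        map_eq K (c i)
      rw [← h2]
      exact Pool.Agent.Y667.OG.fin_K K (hD i) (Pool.Agent.W307.RT.tors_iff.2 (hT i))
    exact Pool.Agent.Y667.BK.finite_of_rk (Module.Finite.iff_addGroup_fg.1 hfg) h1
  refine ⟨Pool.Agent.Y667.BK.tensor_zero, fun x => funext fun i => ?_⟩
  exact Pool.Agent.Y667.BKK.h1f_zero (h4 i) m (Pool.Agent.Y667.QK.field_of (tup_pos hd) (hD i)
    (Pool.Agent.W307.RT.tors_iff.2 (hT i)) (h i) K (gen_of hK)).2.2 (x i)

lemma deg_of {m N : ℕ} {d : Fin m → ℕ} (hd : Tuple N d) (K : Type) [Field K] [NumberField K]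
    (hK : IsField d K) : Module.finrank ℚ K = 2 ^ m := by
  obtain ⟨q, q', h1, h2, h3, h4, h5, h6⟩ := hd
  refine Pool.Agent.Y388.QK.DEG m q q' (fun j => (h2 j).1) (fun j => (h3 j).1) h4 h5 h6 K ?_
  have := gen_of hK
  have e : (fun j => ((q j * q' j : ℕ) : ℤ)) = fun j => (d j : ℤ) := by
    funext j
    rw [h1 j]
  rw [e]
  exact this

/-- the property without the size -/
def Pr (c : ℤ × ℤ) : Prop := 4 * c.1 ^ 3 + 27 * c.2 ^ 2 ≠ 0 ∧
    (∀ p : ℕ, p.Prime → ¬ ((p : ℤ) ^ 4 ∣ c.1 ∧ (p : ℤ) ^ 6 ∣ c.2)) ∧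
    (∃ g : ZMod 2 × ZMod 2 →+ (E c.1 c.2).toAffine.Point, Function.Injective g)

lemma good : Pool.Agent.Y679.Cr.Good Pr := by
  classical
  refine ⟨fun c hc => ⟨?_, ?_⟩, fun H c hc => ?_, Pool.Agent.W672.FK.lowf⟩
  · exact Pool.Agent.Y679.Cr.isMin_of hc.1 hc.2.1
  · exact Pool.Agent.Y679.Cr.full_of (Pool.Agent.W307.RT.tors_iff.2 hc.2.2)
  · unfold Pool.Agent.W307.RT.Cv at hc
    obtain ⟨-, h1, -, -, h2, h3⟩ := mem_filter.1 hc
    exact ⟨h1, h2, Pool.Agent.W307.RT.tors_iff.1 h3⟩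

lemma cond_eq (c : ℤ × ℤ) : Pool.Agent.Y679.Cr.cs c = Cond6 c := by
  unfold Pool.Agent.Y679.Cr.cs Pool.Agent.H925R.Szpiro.condS Cond6
  rw [Pool.Agent.Y679.Cr.D_neg, Int.natAbs_neg]
  refine prod_congr rfl fun p _ => ?_
  by_cases h : (p : ℤ) ∣ c.1
  · rw [if_pos h, if_pos (Int.dvd_neg.2 h)]
  · rw [if_neg h, if_neg fun h' => h (Int.dvd_neg.1 h')]

lemma bdd {f : ℤ × ℤ → ℕ} (hf : Factor f) : Pool.Agent.Y679.Cr.Bdd f :=
  fun c => ⟨(hf c).1, (hf c).2.trans (by norm_num)⟩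

lemma FamC_eq (f : ℤ × ℤ → ℕ) (Z : ℕ) : Fam f Z = Pool.Agent.Y679.Cr.Gm Pr f Z := by
  ext c
  unfold Fam CondLe Pool.Agent.Y679.Cr.Gm
  rw [Set.mem_ofPred_eq, Set.mem_ofPred_eq, cond_eq]
  exact ⟨fun h => ⟨⟨h.1, h.2.1, h.2.2.1⟩, h.2.2.2⟩, fun h => ⟨h.1.1, h.1.2.1, h.1.2.2, h.2⟩⟩

/-- **Theorem.** Let `g ≥ 0`. Order the elliptic curves over `ℚ` with full rational 2-torsion by the
conductor (the part composed of 2 and 3 replaced by an arbitrary factor `f` between `1` and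
`2 ^ 8 * 3 ^ 5`, for instance by itself). There are finitely many `g`-tuples of curves of conductor at
most `Z`, the number of the curves tends to infinity with `Z`, and for all `m`, `N` there are a finite
list `L` of tuples of products of two primes larger than `N`, the `2 m` primes distinct, so that the
fields `K = ℚ(√d_1, ..., √d_m)` have degree `2 ^ m`, and `δ > 0` such that for all large `Z` for some
`d` in `L`, for all factors `f`, at least a proportion `δ` of the `g`-tuples of curves has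
`A(K) ⊗ ℚ₂ = 0` and `H¹_f(K, M₂) = 0`, `A = ∏ E_i`, `M = h¹(A)(1)`; and one `d` in `L` has this
property for arbitrarily large `Z`. -/
theorem result (g : ℕ) :
    (∀ f : ℤ × ℤ → ℕ, Factor f → (∀ Z : ℕ, (Tuples f g Z).Finite) ∧
      Tendsto (fun Z : ℕ => (Fam f Z).ncard) atTop atTop) ∧
    ∀ m N : ℕ, ∃ L : Finset (Fin m → ℕ), (∀ d ∈ L, Tuple N d ∧
        ∀ (K : Type) [Field K] [NumberField K], IsField d K → Module.finrank ℚ K = 2 ^ m) ∧
      ∃ δ : ℝ, 0 < δ ∧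
        (∀ᶠ Z : ℕ in atTop, ∃ d ∈ L, ∀ f : ℤ × ℤ → ℕ, Factor f →
          δ ≤ proportion f g (AJIso g d) Z) ∧
        ∃ d ∈ L, ∃ᶠ Z : ℕ in atTop, ∀ f : ℤ × ℤ → ℕ, Factor f →
          δ ≤ proportion f g (AJIso g d) Z := by
  classical
  obtain ⟨β, hfl⟩ := Pool.Agent.Y388.QK.FLIP 17 (by norm_num) (by norm_num)
  have hfin : ∀ f : ℤ × ℤ → ℕ, Factor f → ∀ Z : ℕ, (Fam f Z).Finite := fun f hf Z => by
    rw [FamC_eq]
    exact Pool.Agent.Y679.Cr.Gm_fin good (bdd hf) Z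
  refine ⟨fun f hf => ⟨fun Z => Pool.Agent.Q323.CO.fin (hfin f hf Z), ?_⟩, fun m N => ?_⟩
  · simp only [FamC_eq]
    exact Pool.Agent.Y679.Cr.Gm_tendsto good (bdd hf)
  · obtain ⟨L, hL, δ₀, hδ₀, H0, h⟩ :=
      Pool.Agent.Y667.QK.main_h Pool.Agent.Y388.QK.PRM hfl m N
    obtain ⟨δ, hδ, Z0, hZ0⟩ := Pool.Agent.Q323.CO.posL good (L := L)
      (T := fun d c => Pool.Agent.Y667.QK.TwS (fun j => (d j : ℤ)) c) (by
      refine ⟨δ₀, hδ₀, H0, fun H hH => ?_⟩
      obtain ⟨d, hd, hle⟩ := h H hH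
      refine ⟨d, hd, _, fun k hk => ?_, hle⟩
      exact mem_filter.1 (mem_coe.1 hk))
    have key : ∀ᶠ Z : ℕ in atTop, ∃ d ∈ L, ∀ f : ℤ × ℤ → ℕ, Factor f →
        δ ^ g ≤ proportion f g (AJIso g d) Z := by
      filter_upwards [eventually_ge_atTop Z0] with Z hZ
      obtain ⟨d, hd, h1⟩ := hZ0 Z hZ
      refine ⟨d, hd, fun f hf => ?_⟩
      obtain ⟨h2, h3⟩ := h1 f (bdd hf)
      rw [← FamC_eq] at h2 h3
      have h4 := Pool.Agent.Q323.CO.tup (g := g) (hfin f hf Z)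
        (fun _ => {k | Pool.Agent.Y667.QK.TwS (fun j => (d j : ℤ)) k}) (fun _ => δ)
        (fun _ => hδ.le) h2 (fun _ => h3) (AJIso g d) (fun c hc =>
          good_of (hL d hd) (fun i => (hc i).1.1) (fun i => (hc i).1.2.2.1) fun i => (hc i).2)
      rw [prod_const, card_univ, Fintype.card_fin] at h4
      exact h4
    exact ⟨L, fun d hd => ⟨hL d hd, fun K _ _ hK => deg_of (hL d hd) K hK⟩, δ ^ g,
      pow_pos hδ g, key, Pool.Agent.Q323.CO.pack L
        (fun d Z => ∀ f : ℤ × ℤ → ℕ, Factor f → δ ^ g ≤ proportion f g (AJIso g d) Z) key⟩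

end Pool.Agent.Results.MP_009fd8_ag.ProductsByConductor
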