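import Pool.Agent.Q160.JX.Joint
import Pool.Agent.Q6.XM.Mq
import Pool.Agent.Q6.XM.ShaK
import Pool.Agent.Y667.BKK.Main

/-!
# The 2-adic Abel–Jacobi maps of products of twists of `X_0(49)` over several multiquadratic fields at once

`E^M : y² = x³ - 35 M² x - 98 M³` is the twist by `M` of `X_0(49)`, the elliptic curve with complex multiplication by the
integers of `ℚ(√-7)`. The class consists of the squarefree `D ≥ 1` whose prime factors are `≡ 1 mod 8` and split in `ℚ(√-7)`, or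
`≡ 5 mod 8` and inert, and the family of the `D ≡ 1 mod 8` in the class. For `K = ℚ(√d_1, …, √d_n)` of degree `2ⁿ` and an abelian
variety `A = E^{M_1} × … × E^{M_g}` let `M(A) = h¹(A)(1)` over `K`.

Let `G`, `G'` be disjoint finite sets of elements of the class. For exactly the proportion `c ^ #G (1 - c) ^ #G'`,
`c = ∏_{i ≥ 0} (1 - 2^{-(2i+1)}) = 0.4194...`, of the `D` in the family (and for at least `a X (log X)^(-3/4)` numbers `D ≤ X`) the twists
by `D` of the curves `E^m` have rank `0` and `Ш[2] = 0` over `ℚ` for all `m ∈ G` and for no `m ∈ G'`. For each of these `D` the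
2-adic Abel–Jacobi map of `M(A^{(D)})` is an isomorphism onto the Bloch–Kato Selmer group, both groups `A^{(D)}(K) ⊗ ℚ₂` and
`H¹_f(K, M(A^{(D)})₂)` being zero, for ALL `K` and `A` such that the numbers `M_j ∏_{i ∈ T} d_i` belong to `G` up to squares; here
`A^{(D)} = E^{M_1 D} × … × E^{M_g D}` is the twist. So the same `D` can be used for all the fields `K` in a given finite set.
-/

set_option autoImplicit false

open Finset Filter NumberField IsDedekindDomain

namespace Pool.Agent.Results.MP_009fd8_ag.ProductsX049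

open Pool.Agent.Y667.BKK (H1f)

/-- The twist `E^M : y² = x³ - 35 M² x - 98 M³` of `X_0(49)` over the field `F`. -/
def short (M : ℤ) (F : Type) [Field F] : WeierstrassCurve F :=
  { a₁ := 0, a₂ := 0, a₃ := 0, a₄ := ((-35 * M ^ 2 : ℤ) : F), a₆ := ((-98 * M ^ 3 : ℤ) : F) }

/-- `E^M(ℚ)` is finite and `Ш(E^M/ℚ)` has no element of order two -/
def RankZeroShaTwo (M : ℤ) : Prop :=
  Finite (short M ℚ).toAffine.Point ∧
    ∀ x : Pool.Agent.TH841.SH.D.Sha (short M ℚ), 2 • x = 0 → x = 0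

/-- `d_1, …, d_n` are independent modulo squares: `ℚ(√d_1, …, √d_n)` has degree `2ⁿ` -/
def Independent {n : ℕ} (d : Fin n → ℤ) : Prop :=
  ∀ T : Finset (Fin n), T.Nonempty → ¬ IsSquare (∏ i ∈ T, d i)

/-- `K = ℚ(√d_1, …, √d_n)` -/
def IsMultiquadratic {n : ℕ} (d : Fin n → ℤ) (K : Type) [Field K] [NumberField K] : Prop :=
  ∃ x : Fin n → K, (∀ i, x i ^ 2 = (d i : K)) ∧ IntermediateField.adjoin ℚ (Set.range x) = ⊤

/-- the class: `D` is squarefree, its prime factors are `1` modulo `8` and split in `ℚ(√-7)`, or `5`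
modulo `8` and inert in `ℚ(√-7)` -/
def Class (D : ℕ) : Prop := Squarefree D ∧ ∀ p : ℕ, p.Prime → p ∣ D →
  (p % 8 = 1 ∧ (p % 7 = 1 ∨ p % 7 = 2 ∨ p % 7 = 4)) ∨
  (p % 8 = 5 ∧ (p % 7 = 3 ∨ p % 7 = 5 ∨ p % 7 = 6))

/-- the family: the numbers of the class which are `1` modulo `8` -/
def Family (D : ℕ) : Prop := Class D ∧ D % 8 = 1

/-- the squarefree part of the product of two squarefree numbers -/
def star (m D : ℕ) : ℕ := m * D / (Nat.gcd m D) ^ 2

open Classical in
/-- the number of the `D ≤ X` in the family with the property `Q` -/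
noncomputable def count (Q : ℕ → Prop) (X : ℕ) : ℕ := ((Icc 1 X).filter fun D => Family D ∧ Q D).card

open Classical in
/-- For all `g`, `M_1, …, M_g` and all `K = ℚ(√d_1, …, √d_n)` of degree `2ⁿ` such that for all `j` and `T` the number
`M_j ∏_{i ∈ T} d_i` is, up to squares, in `G`: for `A = E^{M_1 D} × … × E^{M_g D}` the groups `A(K) ⊗ ℚ₂` and `H¹_f(K, V₂(A))`, that is
`∏_j H¹_f(K, V₂(E^{M_j D}))`, are zero. -/
def AllZero (G : Finset ℕ) (D : ℕ) : Prop :=
  ∀ (g n : ℕ) (M : Fin g → ℤ) (d : Fin n → ℤ), Independent d →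
    (∀ (j : Fin g) (T : Finset (Fin n)), ∃ m ∈ G, ∃ k : ℤ, k ≠ 0 ∧ M j * ∏ i ∈ T, d i = m * k ^ 2) →
    ∀ (K : Type) [Field K] [NumberField K], IsMultiquadratic d K →
      (∀ x : TensorProduct ℤ ((j : Fin g) → (short (M j * D) K).toAffine.Point) ℚ_[2], x = 0) ∧
      ∀ x : (j : Fin g) → H1f (short (M j * D) K), x = 0

section proof

open Q6.XK Q6.XM

lemma triv_iff' (D : ℤ) : RankZeroShaTwo D ↔ Triv D := by
  unfold RankZeroShaTwo Triv
  refine and_congr Iff.rfl (forall_congr' fun x => ?_)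
  rw [two_nsmul]
  rfl

/-- from `ℚ` to the fields `K`, one curve -/
theorem one {G : Finset ℕ} (hG : ∀ m ∈ G, Class m) {D : ℕ} (hD : Class D)
    (h : ∀ m ∈ G, RankZeroShaTwo (star m D)) {n : ℕ} {M : ℤ} {d : Fin n → ℤ} (hd : Independent d)
    (hT : ∀ T : Finset (Fin n), ∃ m ∈ G, ∃ k : ℤ, k ≠ 0 ∧ M * ∏ i ∈ T, d i = m * k ^ 2)
    (K : Type) [Field K] [NumberField K] (hK' : IsMultiquadratic d K) :
    Finite (short (M * D) K).toAffine.Point ∧ ∀ x : H1f (short (M * D) K), x = 0 := by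
  obtain ⟨x, hx, hK⟩ := hK'
  have hGO : GO d (M * D) := by
    intro T
    obtain ⟨m, hm, k, hk, e⟩ := hT T
    obtain ⟨h1, h2⟩ := Pool.Agent.Q160.JX.star_class (hG m hm) hD
    have hB := Pool.Agent.Q160.JX.class_base h1
    have hg : Nat.gcd m D ≠ 0 := by
      intro h0
      exact hD.1.ne_zero (Nat.gcd_eq_zero_iff.1 h0).2
    refine ⟨Pool.Agent.Q160.JX.star m D, Nat.gcd m D * k, hB,
      (triv_crit hB).1 ((triv_iff' _).1 (h m hm)), mul_ne_zero (by exact_mod_cast hg) hk, ?_⟩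
    have h3 : (m : ℤ) * D = Pool.Agent.Q160.JX.star m D * (Nat.gcd m D) ^ 2 := by exact_mod_cast h2
    calc M * D * ∏ i ∈ T, d i = (M * ∏ i ∈ T, d i) * D := by ring
      _ = (m * D) * k ^ 2 := by rw [e]; ring
      _ = _ := by rw [h3]; ring
  obtain ⟨-, h3⟩ := field_inc hd hGO K x hx hK
  have h3' : Finite (short (M * D) K).toAffine.Point := h3
  exact ⟨h3', Pool.Agent.Y667.BKK.h1f_zero (W := short (M * D) K) h3' n (sha_field hd hGO K hx hK).2⟩

open Classical in
/-- from `ℚ` to the fields `K` -/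
theorem allZero {G : Finset ℕ} (hG : ∀ m ∈ G, Class m) {D : ℕ} (hD : Class D)
    (h : ∀ m ∈ G, RankZeroShaTwo (star m D)) : AllZero G D := by
  intro g n M d hd hT K _ _ hK
  have h1 : ∀ j, Finite (short (M j * D) K).toAffine.Point := fun j => (one hG hD h hd (hT j) K hK).1
  exact ⟨Pool.Agent.Y667.BK.tensor_zero, fun x => funext fun j => (one hG hD h hd (hT j) K hK).2 (x j)⟩

end proof

open Classical in
theorem count_congr {Q R : ℕ → Prop} (h : ∀ D, Family D → (Q D ↔ R D)) (X : ℕ) :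
    count Q X = Pool.Agent.Q160.JX.count R X := by
  unfold count Pool.Agent.Q160.JX.count
  congr 1
  ext D
  rw [Finset.mem_filter, Finset.mem_filter]
  exact and_congr_right fun _ => and_congr_right fun hD => h D hD

/-- **Theorem.** -/
theorem result :
    (∀ m D : ℕ, Class m → Class D → Class (star m D) ∧ m * D = star m D * (Nat.gcd m D) ^ 2) ∧
    (∀ (G : Finset ℕ) (D : ℕ), (∀ m ∈ G, Class m) → Class D → (∀ m ∈ G, RankZeroShaTwo (star m D)) →
      AllZero G D) ∧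
    ∃ c : ℝ, 0.4194 < c ∧ c < 0.4195 ∧
      Tendsto (fun n : ℕ => ∏ i ∈ range n, (1 - (1 / 2 : ℝ) ^ (2 * i + 1))) atTop (nhds c) ∧
      ∀ G G' : Finset ℕ, (∀ m ∈ G, Class m) → (∀ m ∈ G', Class m) → Disjoint G G' →
        Tendsto (fun X : ℕ => (count (fun D => AllZero G D ∧ (∀ m ∈ G, RankZeroShaTwo (star m D)) ∧
            ∀ m ∈ G', ¬ RankZeroShaTwo (star m D)) X : ℝ) / (count (fun _ => True) X : ℝ))
          atTop (nhds (c ^ G.card * (1 - c) ^ G'.card)) ∧
        ∃ (a : ℝ) (X₀ : ℕ), 0 < a ∧ ∀ X : ℕ, X₀ ≤ X → a * (X * (Real.log X) ^ (-(3 / 4) : ℝ)) ≤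
          (count (fun D => AllZero G D ∧ (∀ m ∈ G, RankZeroShaTwo (star m D)) ∧
            ∀ m ∈ G', ¬ RankZeroShaTwo (star m D)) X : ℝ) := by
  classical
  obtain ⟨-, hc1, hc2, hT⟩ := Pool.Agent.Q160.JX.const
  refine ⟨fun m D hm hD => Pool.Agent.Q160.JX.star_class hm hD, fun G D hG hD h => allZero hG hD h,
    Pool.Agent.Y703.CQ.c2, hc1, hc2, hT, ?_⟩
  intro G K hG hK hd
  obtain ⟨hlim, hlow⟩ := Pool.Agent.Q160.JX.main G K hG hK hd
  have e0 : ∀ X, count (fun _ => True) X = Pool.Agent.Q160.JX.count (fun _ => True) X := fun _ => rfl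
  have e : ∀ X, count (fun D => AllZero G D ∧ (∀ m ∈ G, RankZeroShaTwo (star m D)) ∧
      ∀ m ∈ K, ¬ RankZeroShaTwo (star m D)) X =
      Pool.Agent.Q160.JX.count (fun D => (∀ m ∈ G, Q6.XK.Triv (Pool.Agent.Q160.JX.star m D : ℤ)) ∧
        ∀ m ∈ K, ¬ Q6.XK.Triv (Pool.Agent.Q160.JX.star m D : ℤ)) X := by
    intro X
    refine count_congr (fun D hD => ?_) X
    have h1 : (∀ m ∈ G, RankZeroShaTwo (star m D)) ↔
        ∀ m ∈ G, Q6.XK.Triv (Pool.Agent.Q160.JX.star m D : ℤ) :=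
      forall_congr' fun m => forall_congr' fun hm => triv_iff' _
    have h2 : (∀ m ∈ K, ¬ RankZeroShaTwo (star m D)) ↔
        ∀ m ∈ K, ¬ Q6.XK.Triv (Pool.Agent.Q160.JX.star m D : ℤ) :=
      forall_congr' fun m => forall_congr' fun hm => not_congr (triv_iff' _)
    rw [← h1, ← h2]
    exact ⟨fun h => h.2, fun h => ⟨allZero hG hD.1 h.1, h⟩⟩
  simp only [e, e0]
  exact ⟨hlim, hlow⟩

end Pool.Agent.Results.MP_009fd8_ag.ProductsX049
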