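import Pool.Agent.Q49.WU.Pair

/-!
# Abel–Jacobi maps onto Bloch–Kato Selmer groups and cubic hypersurfaces `T(x, y, z) = 1`

Let `K` be a number field and `p` a prime number. For a smooth projective variety `Y` over `K` and an
integer `n` let `A^n(Y) = CH^n(Y)^0 ⊗ ℚ_p`, where `CH^n(Y)^0` is the `ℚ`-vector space of homologically
trivial cycles of codimension `n`, and `B^n(Y) = H^1_f(K, H^{2n-1}(Y_{K̄}, ℚ_p)(n))`. Both are additive
functors of Chow motives over `K`, and the `p`-adic Abel–Jacobi map is a map `A^n(Y) → B^n(Y)` (the image
is contained in the Bloch–Kato Selmer group: Nekovář, Nizioł, Saito). Let `AJ(Y, n)` be the statement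
that it is an isomorphism. If it is true for all smooth projective `Y` over `K` and all `n`, then
question Q1 is true over `K` for `p`, because the Abel–Jacobi map of a polarized Chow motive
`M = (Y, e, n)` of weight `-1` is a direct factor of the one for `Y` and `n`. For `n = 1` the statement
`AJ(Y, 1)` says that the `p`-primary part of the Tate–Shafarevich group of the abelian variety
`Pic^0_{red}(Y)` is finite.

For a separated scheme `X` of finite type over `K` let `W(X)` be its weight complex (Gillet, Soulé), and
`A^{n,i}(X) = H^i(A^n(W(X)))`, `B^{n,i}(X) = H^i(B^n(W(X)))`, with the maps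
`A^{n,i}(X) → B^{n,i}(X)`. For smooth projective `X` this is the Abel–Jacobi map if `i = 0`, and the
groups are zero if `i ≠ 0`. `BijAt C Prod.fst n X` says that these maps are isomorphisms for the given `n`
and all `i`, and `BijAll C X` that they are isomorphisms for all `n` and `i`.

**Theorem.** (1) `AJ(Y, n)` is true for all smooth projective `Y` over `K` and all `n` (so that Q1 is true
over `K` for `p`) if and only if the maps `A^{n,i}(Z) → B^{n,i}(Z)` are isomorphisms, for all `n` and `i`,
for the smooth affine cubic hypersurfaces `Z : T(x, y, z) = 1` of all trilinear forms `T` over `K`. For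
all `d`, it is true for all `Y` of dimension at most `d` if and only if they are isomorphisms for the `T`
such that one of the three blocks of variables has at most `d + 2` variables. For `d = 1` this is the
finiteness of the `p`-primary part of the Tate–Shafarevich group for all abelian varieties over `K`.

(2) For every `n`, the statement `AJ(Y, n)` is true for all smooth projective `Y` over `K` if and only if
the maps `A^{n+a-1,i}(Z) → B^{n+a-1,i}(Z)` are isomorphisms for all `i` and all hypersurfaces
`Z : T(x, y, z) = 1`, where `a` is the number of the variables `x_i`.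

(3) If `K = ℚ`, it is enough in (2) to consider the hypersurfaces
`X_H : ∑_{(i, j, l) ∈ H} x_i y_j z_l = 1` of the finite sets `H` of triples. In particular (`n = 1`) the
following are equivalent: the `p`-primary part of the Tate–Shafarevich group is finite for all
abelian varieties over all number fields (equivalently over `ℚ`, by restriction of scalars); the maps
`A^{a,i}(X_H) → B^{a,i}(X_H)` are isomorphisms for all finite `H` and all `i`.
-/

set_option autoImplicit false

open CategoryTheory CategoryTheory.Limits AlgebraicGeometry Pool.Agent.Y116.UV Pool.Agent.Z125.UN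
  Pool.Agent.Q193.LT Pool.Agent.Q49.WU

universe w

namespace Pool.Agent.Results.MP_009fd8_ag.SelmerCubics

/-- The maps of codimension `n` are isomorphisms. -/
def AJ {K : Type} [Field K] {p : ℕ} [Fact p.Prime] (C : PairData.{w} K (ℤ × ℤ) ℚ_[p]) (n : ℤ)
    (X : Sch K) : Prop :=
  BijAt C Prod.fst n X

/-- All maps are isomorphisms for all smooth projective schemes of dimension at most `d`. -/
def Proj {K : Type} [Field K] {p : ℕ} [Fact p.Prime] (C : PairData.{w} K (ℤ × ℤ) ℚ_[p]) (d : ℕ) :
    Prop :=
  ∀ Y : Sch K, SmoothProj Y → topologicalKrullDim Y.left ≤ d → BijAll C Y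

/-- All maps are isomorphisms for all hypersurfaces `T = 1` with a block of at most `m` variables. -/
def Forms {K : Type} [Field K] {p : ℕ} [Fact p.Prime] (C : PairData.{w} K (ℤ × ℤ) ℚ_[p]) (m : ℕ) :
    Prop :=
  ∀ (a b c : ℕ) (T : Fin a → Fin b → Fin c → K), (a ≤ m ∨ b ≤ m ∨ c ≤ m) → BijAll C (hypS T)

/-- **Bloch–Kato Selmer groups and cubic hypersurfaces.** See the explanations above; `point` is the
trivial case of `Spec K`, where all groups are zero. -/
theorem result {K : Type} [Field K] [NumberField K] {p : ℕ} [Fact p.Prime]
    {C : PairData.{w} K (ℤ × ℤ) ℚ_[p]} (hC : IsWeightPair C) (hg : WeightGen C)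
    (hw : GenAt C Prod.fst) (point : BijAll C (aff K K)) :
    ((∀ Y : Sch K, SmoothProj Y → BijAll C Y) ↔
      ∀ (a b c : ℕ) (T : Fin a → Fin b → Fin c → K), BijAll C (hypS T)) ∧
    (∀ d : ℕ, Proj C d ↔ Forms C (d + 2)) ∧
    (∀ n : ℤ, (∀ Y : Sch K, SmoothProj Y → AJ C n Y) ↔
      ∀ (a b c : ℕ) (T : Fin a → Fin b → Fin c → K), AJ C (n + (a - 1)) (hypS T)) ∧
    (Frac K → ∀ n : ℤ, (∀ Y : Sch K, SmoothProj Y → AJ C n Y) ↔
      ∀ (a b c : ℕ) (H : Finset (Fin a × Fin b × Fin c)), AJ C (n + (a - 1)) (tripS K H)) :=
  ⟨wg_all hg hC point, fun d => wg_dim hg hC point d,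
    fun n => sp_at_iff hw hC graded_weight point n,
    fun hF n => sp_at_graph hw hC graded_weight point hF n⟩

end Pool.Agent.Results.MP_009fd8_ag.SelmerCubics
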